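import Mathlib
import Pool.Agent.H56.Sb5

namespace Pool.Agent.Results.MP_3ec1f3_nt.Full
open Finset Pool.Agent.H56.Sb2 Pool.Agent.H56.Sb5

theorem result (p : ℕ) (hp : p.Prime) (h3 : 3 < p) (r : ℕ) (hr : 1 ≤ r) (α : ℚ)
    (hα : α = ((p : ℚ) ^ r - 1) / ((p : ℚ) ^ (r + 1) - 1)) :
    ∃ u v : ℤ, ¬ (p : ℤ) ∣ v ∧
      ∑ k ∈ range (p ^ r), (2 * (k : ℚ) / α + 1) *
        ((∏ j ∈ range k, (α + j)) / (k.factorial : ℚ)) ^ (2 * ∑ i ∈ range (r + 1), p ^ i)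
        = (p : ℚ) ^ (2 * r + 5) * u / v := by
  have : Fact p.Prime := ⟨hp⟩
  obtain ⟨r, rfl⟩ : ∃ s, r = s + 1 := ⟨r - 1, by omega⟩
  set N := ∑ i ∈ range (r + 1 + 1), p ^ i with hN
  have hd : (p : ℤ) ∣ (N : ℤ) - 1 := by
    rw [hN, sum_range_succ']
    push_cast
    simp only [pow_zero, add_sub_cancel_right]
    exact Finset.dvd_sum fun i _ => dvd_pow_self _ (by omega)
  have hp1 : ¬ (p : ℤ) ∣ 1 := (Nat.prime_iff_prime_int.1 hp).not_dvd_one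
  have hnd : ¬ p ∣ N := by
    intro h
    apply hp1
    simpa using dvd_sub (Int.natCast_dvd_natCast.2 h) hd
  have hN0 : (N : ℚ) ≠ 0 := by
    rintro h0; apply hnd
    have : N = 0 := by exact_mod_cast h0
    simp [this]
  have hgeom : (N : ℚ) * ((p : ℚ) - 1) = (p : ℚ) ^ (r + 1 + 1) - 1 := by
    rw [hN]; push_cast; exact geom_sum_mul _ _
  have hp4 : (3 : ℚ) < p := by exact_mod_cast h3
  have hP1 : (1 : ℚ) < (p : ℚ) ^ (r + 1) := one_lt_pow₀ (by linarith) (by omega)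
  have hpm : (p : ℚ) - 1 ≠ 0 := by linarith
  have hαe : 1 - (N : ℚ)⁻¹ * (p : ℚ) ^ (r + 1) = α := by
    rw [hα, ← hgeom]
    field_simp
    linear_combination hgeom
  have hα0 : α ≠ 0 := by
    rw [hα, ← hgeom]
    exact div_ne_zero (by linarith) (mul_ne_zero hN0 hpm)
  have hi : (1 - (p : ℚ) ^ (r + 1))⁻¹ ∈ Zp p := by
    have := inv_mem_int (p := p) (1 - (p : ℤ) ^ (r + 1)) (fun h => hp1 (by
      simpa using dvd_add h (dvd_pow_self (p : ℤ) (show r + 1 ≠ 0 by omega))))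
    simpa using this
  have hαi : α⁻¹ ∈ Zp p := by
    have : α⁻¹ = (1 - (p : ℚ) ^ (r + 1 + 1)) * (1 - (p : ℚ) ^ (r + 1))⁻¹ := by
      rw [hα, inv_div, ← neg_div_neg_eq, neg_sub, neg_sub, div_eq_mul_inv]
    rw [this]
    exact mul_mem (sub_mem (one_mem _) (pow_mem (natCast_mem _ _) _)) hi
  obtain ⟨z, hz, h⟩ := (bridge h3 r N hnd).2 hd
  obtain ⟨u, v, hv, huv⟩ : (1 - (p : ℚ) ^ (r + 1))⁻¹ * α⁻¹ * z ∈ Zp p :=
    mul_mem (mul_mem hi hαi) hz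
  refine ⟨u, v, hv, ?_⟩
  have e : (p : ℚ) ^ (2 * (r + 1) + 5) * u / v = ((1 - (p : ℚ) ^ (r + 1))⁻¹ * α⁻¹) *
      ((p : ℚ) ^ (2 * (r + 1) + 5) * z) := by
    rw [mul_div_assoc, ← huv]; ring
  rw [e, ← h, Finset.mul_sum (range (p ^ (r + 1)))]
  refine Finset.sum_congr rfl fun k _ => ?_
  rw [← poch_div, hαe, show 2 * (k : ℚ) + 1 - (N : ℚ)⁻¹ * (p : ℚ) ^ (r + 1) = 2 * k + α by
    rw [← hαe]; ring]
  have hne : 1 - (p : ℚ) ^ (r + 1) ≠ 0 := by linarith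
  generalize ((∏ j ∈ range k, (α + j)) / (k.factorial : ℚ)) ^ (2 * N) = F
  generalize 1 - (p : ℚ) ^ (r + 1) = G at *
  field_simp

end Pool.Agent.Results.MP_3ec1f3_nt.Full
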